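import Pool.Agent.Helper82.HB.GoalsB
import Pool.Agent.Helper40.RBC.RVP
import Pool.Agent.Helper94.HS.VENV

/-!
# HB, packet SAV: averages of continuous functions of `X_j`
-/

open Complex Metric Set Filter Topology MeasureTheory
open scoped ContDiff ComplexConjugate ComplexOrder Manifold Matrix

namespace Pool.Agent.Helper40.HB

open Pool.Agent.Helper95.Lin Pool.Agent.Helper16.Abund Pool.Agent.Helper92.Orb
  Pool.Agent.Helper10.SP Pool.Agent.Helper95.RK Pool.Agent.Helper57.HS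
  Pool.Agent.Helper15.HS Pool.Agent.Helper15.GS Pool.Agent.Helper57.RBC
  Pool.Agent.Helper95.HS Pool.Agent.Helper82.HB Pool.Agent.Helper40.RBC
open Pool.Agent.Helper10.RBC (dn)

universe u v

/-- A continuous function on a compact set of matrices: modulus of continuity. -/
theorem modulM {n m : ℕ} (C : Set (Cn n)) (hC : IsCompact C) (B : ℝ)
    (F : Cn n → Matrix (Fin m) (Fin m) ℂ → ℝ)
    (hF : ContinuousOn (fun q : Cn n × Matrix (Fin m) (Fin m) ℂ => F q.1 q.2) (C ×ˢ univ))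
    (η : ℝ) (hη : 0 < η) : ∃ M : ℝ, 0 ≤ M ∧ ∀ x ∈ C, ∀ X Y : Matrix (Fin m) (Fin m) ℂ,
      (∀ a c, ‖X a c‖ ≤ B) → (∀ a c, ‖Y a c‖ ≤ B) →
      F x X ≤ F x Y + η + M * ∑ a, ∑ c, ‖X a c - Y a c‖ := by
  classical
  -- work with functions Fin m → Fin m → ℂ
  let D : Set (Fin m → Fin m → ℂ) := Set.pi univ fun _ => Set.pi univ fun _ => closedBall 0 B
  have hD : IsCompact D := isCompact_univ_pi fun _ => isCompact_univ_pi fun _ =>
    isCompact_closedBall 0 B
  let G : Cn n × (Fin m → Fin m → ℂ) → ℝ := fun q => F q.1 (Matrix.of q.2)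
  have hG : ContinuousOn G (C ×ˢ D) := by
    have h1 : ContinuousOn (fun q : Cn n × (Fin m → Fin m → ℂ) =>
        ((q.1, (Matrix.of q.2 : Matrix (Fin m) (Fin m) ℂ)) : Cn n × Matrix (Fin m) (Fin m) ℂ))
        (C ×ˢ D) := by
      apply Continuous.continuousOn
      exact continuous_fst.prodMk (continuous_id.comp continuous_snd)
    exact hF.comp h1 fun q hq => ⟨hq.1, mem_univ _⟩
  have hK : IsCompact (C ×ˢ D) := hC.prod hD
  have hu := hK.uniformContinuousOn_of_continuous hG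
  rw [Metric.uniformContinuousOn_iff] at hu
  obtain ⟨δ, hδ, hu⟩ := hu η hη
  obtain ⟨S, hS⟩ := hK.exists_bound_of_continuousOn hG
  refine ⟨2 * |S| / δ, by positivity, ?_⟩
  intro x hx X Y hX hY
  have hXD : (fun a c => X a c) ∈ D := by
    intro a _ c _
    simpa using hX a c
  have hYD : (fun a c => Y a c) ∈ D := by
    intro a _ c _
    simpa using hY a c
  have hs0 : 0 ≤ ∑ a, ∑ c, ‖X a c - Y a c‖ :=
    Finset.sum_nonneg fun a _ => Finset.sum_nonneg fun c _ => norm_nonneg _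
  by_cases hc : ∑ a, ∑ c, ‖X a c - Y a c‖ < δ
  · have hd : dist ((x, fun a c => X a c) : Cn n × (Fin m → Fin m → ℂ))
        (x, fun a c => Y a c) < δ := by
      rw [Prod.dist_eq]
      simp only [dist_self]
      rw [max_lt_iff]
      refine ⟨hδ, ?_⟩
      rw [dist_pi_lt_iff hδ]
      intro a
      rw [dist_pi_lt_iff hδ]
      intro c
      rw [dist_eq_norm]
      refine lt_of_le_of_lt ?_ hc
      calc ‖X a c - Y a c‖ ≤ ∑ c, ‖X a c - Y a c‖ :=
            Finset.single_le_sum (f := fun c => ‖X a c - Y a c‖)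
              (fun c _ => norm_nonneg _) (Finset.mem_univ c)
        _ ≤ ∑ a, ∑ c, ‖X a c - Y a c‖ :=
            Finset.single_le_sum (f := fun a => ∑ c, ‖X a c - Y a c‖)
              (fun a _ => Finset.sum_nonneg fun c _ => norm_nonneg _) (Finset.mem_univ a)
    have h2 := hu _ (⟨hx, hXD⟩ : ((x, fun a c => X a c) : Cn n × (Fin m → Fin m → ℂ)) ∈ C ×ˢ D)
      _ (⟨hx, hYD⟩ : ((x, fun a c => Y a c) : Cn n × (Fin m → Fin m → ℂ)) ∈ C ×ˢ D) hd
    rw [Real.dist_eq] at h2
    have h3 : F x X - F x Y < η := lt_of_le_of_lt (le_abs_self _) h2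
    have h4 : 0 ≤ 2 * |S| / δ * ∑ a, ∑ c, ‖X a c - Y a c‖ := by positivity
    linarith
  · push Not at hc
    have h1 := hS _ (⟨hx, hXD⟩ : ((x, fun a c => X a c) : Cn n × (Fin m → Fin m → ℂ)) ∈ C ×ˢ D)
    have h2 := hS _ (⟨hx, hYD⟩ : ((x, fun a c => Y a c) : Cn n × (Fin m → Fin m → ℂ)) ∈ C ×ˢ D)
    rw [Real.norm_eq_abs] at h1 h2
    have h1' : F x X ≤ |S| := (le_abs_self _).trans (h1.trans (le_abs_self _))
    have h2' : -|S| ≤ F x Y := by
      have := neg_abs_le (F x Y)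
      have h3 : |F x Y| ≤ |S| := h2.trans (le_abs_self _)
      linarith
    have h4 : 2 * |S| ≤ 2 * |S| / δ * ∑ a, ∑ c, ‖X a c - Y a c‖ := by
      rw [div_mul_eq_mul_div, le_div_iff₀ hδ]
      exact mul_le_mul_of_nonneg_left hc (by positivity)
    linarith

/-- The matrices `X_j` are continuous. -/
theorem contXS {n m : ℕ} {T : Set (Cn n)} {σ : Cn n → Matrix (Fin n) (Fin m) ℂ}
    {h : Cn n → Matrix (Fin m) (Fin m) ℂ} {Q : Cn n → Matrix (Fin n) (Fin n) ℂ} (ε : ℝ)
    (hσ : ∀ i a, ContinuousOn (fun x => σ x i a) T) (hh : ∀ a b, ContinuousOn (fun x => h x a b) T)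
    (hQ : ∀ i j, ContinuousOn (fun x => (Q x)⁻¹ i j) T) (a b : Fin m) :
    ContinuousOn (fun x => XS ε σ h Q x a b) T := by
  have : (fun x => XS ε σ h Q x a b) = fun x => (ε : ℂ) * ∑ j, (∑ i, (∑ c, h x a c *
      conj (σ x i c)) * (Q x)⁻¹ i j) * σ x j b := by
    funext x
    simp [XS, Matrix.mul_apply, Matrix.conjTranspose_apply]
  rw [this]
  refine continuousOn_const.mul (continuousOn_finsetSum _ fun j _ => ContinuousOn.mul ?_ (hσ j b))
  refine continuousOn_finsetSum _ fun i _ => ContinuousOn.mul ?_ (hQ i j)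
  refine continuousOn_finsetSum _ fun c _ => (hh a c).mul ?_
  exact Complex.continuous_conj.comp_continuousOn (hσ i c)

theorem upperM (h1 : S_NULL0.{u}) (h2 : S_DETI.{u}) {n m : ℕ} (T : Set (Cn n)) {G : Type u}
    [Group G] (R : G → Cn n → Cn n → Prop) (H : Cn n → Matrix (Fin n) (Fin n) ℂ)
    (σ : Cn n → Matrix (Fin n) (Fin m) ℂ) (h : Cn n → Matrix (Fin m) (Fin m) ℂ) (ψ : Cn n → ℝ)
    (hD : HDat T R H σ h ψ)
    (κ : Cn n → ℝ) (hκ : IsPUE T R κ) (r : ℕ) (A P : Cn n → Matrix (Fin m) (Fin m) ℂ)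
    (s : ℝ) (S N : ℕ → ℝ) (φ : ℕ → Cn n → ℝ) (H' : ℕ → Cn n → Matrix (Fin n) (Fin n) ℂ)
    (ε : ℕ → ℝ) (Q : ℕ → Cn n → Matrix (Fin n) (Fin n) ℂ)
    (hL : LimS r T R κ H σ h A P s S N φ H' ε Q)
    (F : Cn n → Matrix (Fin m) (Fin m) ℂ → ℝ)
    (hF : ContinuousOn (fun q : Cn n × Matrix (Fin m) (Fin m) ℂ => F q.1 q.2) (T ×ˢ univ))
    (b : ℝ) (hb : ∀ x ∈ T, F x (A x) ≤ b) (η : ℝ) (hη : 0 < η) :
    ∀ᶠ j in atTop, avE T κ (Q j) (fun x => F x (XS (ε j) σ h (Q j) x)) ≤ b + η := by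
  classical
  have hT : IsOpen T := hD.ket.et.isOpen
  have hte := hκ.test
  set C : Set (Cn n) := tsupport κ with hCdef
  have hC : IsCompact C := hte.2.1
  have hCT : C ⊆ T := hte.2.2
  obtain ⟨B₀, hB₀⟩ := hL.bX C hCT hC
  -- bound of the entries of A on C
  have hA : ∃ B₁ : ℝ, ∀ x ∈ C, ∀ a c, ‖A x a c‖ ≤ B₁ := by
    have h3 : ∀ a c, ∃ b' : ℝ, ∀ x ∈ C, ‖A x a c‖ ≤ b' := fun a c =>
      hC.exists_bound_of_continuousOn ((hL.cX a c).mono hCT)
    choose b' hb' using h3
    refine ⟨∑ a, ∑ c, |b' a c|, fun x hx a c => ?_⟩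
    refine (hb' a c x hx).trans ((le_abs_self _).trans ?_)
    calc |b' a c| ≤ ∑ c, |b' a c| := Finset.single_le_sum (f := fun c => |b' a c|)
          (fun c _ => abs_nonneg _) (Finset.mem_univ c)
      _ ≤ _ := Finset.single_le_sum (f := fun a => ∑ c, |b' a c|)
          (fun a _ => Finset.sum_nonneg fun c _ => abs_nonneg _) (Finset.mem_univ a)
  obtain ⟨B₁, hB₁⟩ := hA
  obtain ⟨M, hM0, hM⟩ := modulM C hC (max B₀ B₁) F
    (hF.mono (Set.prod_mono hCT (Subset.refl _))) (η / 2) (by linarith)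
  -- bound of κ det H
  have hDH := h2 T R H hD.ket
  have hdH : ContinuousOn (fun x => (H x).det.re) T := hDH.2.1.continuousOn
  obtain ⟨K₁, hK₁⟩ := hC.exists_bound_of_continuousOn
    ((hte.1.continuous.continuousOn (s := C)).mul (hdH.mono hCT))
  -- the integrals tend to 0
  have hlim : Tendsto (fun j => M * ∑ a, ∑ c, (|K₁| * ∫ x in C, dn T κ H (Q j) x *
      ‖XS (ε j) σ h (Q j) x a c - A x a c‖)) atTop (𝓝 0) := by
    have h4 : Tendsto (fun j => M * ∑ a : Fin m, ∑ c : Fin m, (|K₁| * ∫ x in C, dn T κ H (Q j) x *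
      ‖XS (ε j) σ h (Q j) x a c - A x a c‖)) atTop
      (𝓝 (M * ∑ a : Fin m, ∑ c : Fin m, (|K₁| * 0))) := by
      refine Tendsto.const_mul M (tendsto_finsetSum _ fun a _ => tendsto_finsetSum _ fun c _ =>
        Tendsto.const_mul _ (hL.conv C hCT hC a c))
    simpa using h4
  have hev : ∀ᶠ j in atTop, M * ∑ a, ∑ c, (|K₁| * ∫ x in C, dn T κ H (Q j) x *
      ‖XS (ε j) σ h (Q j) x a c - A x a c‖) < η / 2 :=
    hlim.eventually_lt_const (by linarith)
  filter_upwards [hev] with j hj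
  have hkQ : KEt T R (Q j) := (hL.seq.tke j).ket
  obtain ⟨hV, -⟩ := h1 T R (Q j) hkQ κ hκ
  have hDQ := h2 T R (Q j) hkQ
  have hdQ : ContinuousOn (fun x => (Q j x).det.re) T := hDQ.2.1.continuousOn
  have hdQpos : ∀ x ∈ T, 0 < (Q j x).det.re := fun x hx => (hDQ.1 x hx).2.1
  have hdHpos : ∀ x ∈ T, 0 < (H x).det.re := fun x hx => (hDH.1 x hx).2.1
  -- continuity of X_j
  have hσc : ∀ i a, ContinuousOn (fun x => σ x i a) T := fun i a => (hD.sd.holo i a).continuousOn
  have hhc : ∀ a b, ContinuousOn (fun x => h x a b) T := fun a b =>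
    (hD.sd.smooth a b).continuousOn
  have hBc : ∀ a c, ContinuousOn (fun x => XS (ε j) σ h (Q j) x a c) T :=
    contXS (ε j) hσc hhc fun i k => (hDQ.2.2.1 i k).continuousOn
  have hBm : ContinuousOn (fun x => (x, XS (ε j) σ h (Q j) x)) T := by
    refine continuousOn_id.prodMk ?_
    exact continuousOn_pi.2 fun a => continuousOn_pi.2 fun c => hBc a c
  have hFB : ContinuousOn (fun x => F x (XS (ε j) σ h (Q j) x)) T :=
    hF.comp hBm fun x hx => ⟨hx, mem_univ _⟩
  have hno : ∀ a c, ContinuousOn (fun x => ‖XS (ε j) σ h (Q j) x a c - A x a c‖) T := fun a c =>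
    ((hBc a c).sub (hL.cX a c)).norm
  -- numerators
  have hden : itg T κ (Q j) (fun _ => 1) = vol T κ (Q j) := by
    unfold itg vol
    simp
  have hnum : itg T κ (Q j) (fun x => F x (XS (ε j) σ h (Q j) x)) ≤ (b + η) * vol T κ (Q j) := by
    have hi1 : IntegrableOn (fun x => κ x * (Q j x).det.re * F x (XS (ε j) σ h (Q j) x)) T := by
      have := intk hT hte (hdQ.mul hFB)
      refine this.congr_fun (fun x _ => ?_) hT.measurableSet
      simp [mul_assoc]
    have hi2 : ∀ a c, IntegrableOn (fun x => κ x * (Q j x).det.re *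
        ‖XS (ε j) σ h (Q j) x a c - A x a c‖) T := by
      intro a c
      have := intk hT hte (hdQ.mul (hno a c))
      refine this.congr_fun (fun x _ => ?_) hT.measurableSet
      simp [mul_assoc]
    have hi3 : IntegrableOn (fun x => κ x * (Q j x).det.re) T := intk hT hte hdQ
    have hi4 : IntegrableOn (fun x => ∑ a, ∑ c, κ x * (Q j x).det.re *
        ‖XS (ε j) σ h (Q j) x a c - A x a c‖) T :=
      integrable_finsetSum _ fun a _ => integrable_finsetSum _ fun c _ => hi2 a c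
    have hle : itg T κ (Q j) (fun x => F x (XS (ε j) σ h (Q j) x)) ≤
        ∫ x in T, ((b + η / 2) * (κ x * (Q j x).det.re) +
          M * ∑ a, ∑ c, κ x * (Q j x).det.re * ‖XS (ε j) σ h (Q j) x a c - A x a c‖) := by
      unfold itg
      refine setIntegral_mono_on hi1 ((hi3.const_mul _).add (hi4.const_mul _))
        hT.measurableSet ?_
      intro x hx
      by_cases hxC : x ∈ C
      · have h5 := hM x hxC (XS (ε j) σ h (Q j) x) (A x)
          (fun a c => (hB₀ j x hxC a c).trans (le_max_left _ _))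
          (fun a c => (hB₁ x hxC a c).trans (le_max_right _ _))
        have h6 := hb x hx
        have h7 : 0 ≤ κ x * (Q j x).det.re := mul_nonneg (hκ.nonneg x) (hdQpos x hx).le
        have h8 : F x (XS (ε j) σ h (Q j) x) ≤ (b + η / 2) +
            M * ∑ a, ∑ c, ‖XS (ε j) σ h (Q j) x a c - A x a c‖ := by linarith
        have h9 := mul_le_mul_of_nonneg_left h8 h7
        refine h9.trans (le_of_eq ?_)
        have : ∑ a, ∑ c, κ x * (Q j x).det.re * ‖XS (ε j) σ h (Q j) x a c - A x a c‖ =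
            κ x * (Q j x).det.re * ∑ a, ∑ c, ‖XS (ε j) σ h (Q j) x a c - A x a c‖ := by
          rw [Finset.mul_sum]
          refine Finset.sum_congr rfl fun a _ => ?_
          rw [Finset.mul_sum]
        rw [this]
        ring
      · have hk0 : κ x = 0 := image_eq_zero_of_notMem_tsupport hxC
        simp [hk0]
    refine hle.trans ?_
    rw [integral_add (hi3.const_mul _) (hi4.const_mul _), integral_const_mul, integral_const_mul,
      integral_finsetSum _ fun a _ => integrable_finsetSum _ fun c _ => hi2 a c]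
    have hsum : ∑ a, ∫ x in T, ∑ c, κ x * (Q j x).det.re *
        ‖XS (ε j) σ h (Q j) x a c - A x a c‖ =
        ∑ a, ∑ c, ∫ x in T, κ x * (Q j x).det.re * ‖XS (ε j) σ h (Q j) x a c - A x a c‖ := by
      refine Finset.sum_congr rfl fun a _ => ?_
      rw [integral_finsetSum _ fun c _ => hi2 a c]
    rw [hsum]
    -- compare with the integrals over C
    have hcmp : ∀ a c, ∫ x in T, κ x * (Q j x).det.re * ‖XS (ε j) σ h (Q j) x a c - A x a c‖ ≤
        vol T κ (Q j) * (|K₁| * ∫ x in C, dn T κ H (Q j) x *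
          ‖XS (ε j) σ h (Q j) x a c - A x a c‖) := by
      intro a c
      have h10 : ∫ x in T, κ x * (Q j x).det.re * ‖XS (ε j) σ h (Q j) x a c - A x a c‖ =
          ∫ x in C, κ x * (Q j x).det.re * ‖XS (ε j) σ h (Q j) x a c - A x a c‖ := by
        refine (setIntegral_eq_of_subset_of_forall_sdiff_eq_zero hT.measurableSet hCT ?_)
        intro x hx
        have hk0 : κ x = 0 := image_eq_zero_of_notMem_tsupport hx.2
        simp [hk0]
      rw [h10, ← integral_const_mul, ← integral_const_mul]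
      have hdn : ContinuousOn (fun x => dn T κ H (Q j) x) C := by
        unfold dn
        refine (hdQ.mono hCT).div (continuousOn_const.mul (hdH.mono hCT)) ?_
        intro x hx
        exact (mul_pos hV (hdHpos x (hCT hx))).ne'
      refine setIntegral_mono_on ((hi2 a c).mono_set hCT) ?_ hC.measurableSet ?_
      · exact (continuousOn_const.mul (continuousOn_const.mul
          (hdn.mul ((hno a c).mono hCT)))).integrableOn_compact hC
      · intro x hx
        have hxT := hCT hx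
        have hd1 : (Q j x).det.re = vol T κ (Q j) * (H x).det.re * dn T κ H (Q j) x := by
          unfold dn
          field_simp [hV.ne', (hdHpos x hxT).ne']
        have hdn0 : 0 ≤ dn T κ H (Q j) x := by
          unfold dn
          exact div_nonneg (hdQpos x hxT).le (mul_pos hV (hdHpos x hxT)).le
        have hK : κ x * (H x).det.re ≤ |K₁| := by
          have := hK₁ x hx
          rw [Real.norm_eq_abs] at this
          exact (le_abs_self _).trans (this.trans (le_abs_self _))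
        have hn0 : 0 ≤ ‖XS (ε j) σ h (Q j) x a c - A x a c‖ := norm_nonneg _
        rw [hd1]
        have : κ x * (vol T κ (Q j) * (H x).det.re * dn T κ H (Q j) x) *
            ‖XS (ε j) σ h (Q j) x a c - A x a c‖ =
            (κ x * (H x).det.re) * (vol T κ (Q j) * (dn T κ H (Q j) x *
              ‖XS (ε j) σ h (Q j) x a c - A x a c‖)) := by ring
        rw [this]
        have h11 : 0 ≤ vol T κ (Q j) * (dn T κ H (Q j) x *
              ‖XS (ε j) σ h (Q j) x a c - A x a c‖) :=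
          mul_nonneg hV.le (mul_nonneg hdn0 hn0)
        refine (mul_le_mul_of_nonneg_right hK h11).trans (le_of_eq ?_)
        ring
    have hfin : ∑ a, ∑ c, ∫ x in T, κ x * (Q j x).det.re *
        ‖XS (ε j) σ h (Q j) x a c - A x a c‖ ≤ vol T κ (Q j) * ∑ a, ∑ c, (|K₁| *
          ∫ x in C, dn T κ H (Q j) x * ‖XS (ε j) σ h (Q j) x a c - A x a c‖) := by
      rw [Finset.mul_sum]
      refine Finset.sum_le_sum fun a _ => ?_
      rw [Finset.mul_sum]
      exact Finset.sum_le_sum fun c _ => hcmp a c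
    have hvv : ∫ x in T, κ x * (Q j x).det.re = vol T κ (Q j) := rfl
    rw [hvv]
    have h12 := mul_le_mul_of_nonneg_left hfin hM0
    have h13 : M * (vol T κ (Q j) * ∑ a, ∑ c, (|K₁| *
          ∫ x in C, dn T κ H (Q j) x * ‖XS (ε j) σ h (Q j) x a c - A x a c‖)) ≤
        vol T κ (Q j) * (η / 2) := by
      have : M * (vol T κ (Q j) * ∑ a, ∑ c, (|K₁| *
          ∫ x in C, dn T κ H (Q j) x * ‖XS (ε j) σ h (Q j) x a c - A x a c‖)) =
          vol T κ (Q j) * (M * ∑ a, ∑ c, (|K₁| *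
          ∫ x in C, dn T κ H (Q j) x * ‖XS (ε j) σ h (Q j) x a c - A x a c‖)) := by ring
      rw [this]
      exact mul_le_mul_of_nonneg_left hj.le hV.le
    nlinarith
  unfold avE
  rw [hden, div_le_iff₀ hV]
  exact hnum

/-- SAV. -/
theorem sav (h1 : S_NULL0.{u}) (h2 : S_DETI.{u}) : S_SAV.{u} := by
  intro n m T G _ R H σ h ψ hD κ hκ r X P s S N φ H' ε Q hL F hF a b hab η hη
  have hup := upperM h1 h2 T R H σ h ψ hD κ hκ r X P s S N φ H' ε Q hL F hF b
    (fun x hx => (hab x hx).2) η hη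
  have hlo := upperM h1 h2 T R H σ h ψ hD κ hκ r X P s S N φ H' ε Q hL (fun x X => - F x X)
    hF.neg (-a) (fun x hx => neg_le_neg (hab x hx).1) η hη
  filter_upwards [hup, hlo] with j hj1 hj2
  refine ⟨?_, hj1⟩
  have h3 : avE T κ (Q j) (fun x => - F x (XS (ε j) σ h (Q j) x)) =
      - avE T κ (Q j) (fun x => F x (XS (ε j) σ h (Q j) x)) := by
    unfold avE itg
    rw [← neg_div, ← integral_neg]
    congr 1
    refine integral_congr_ae (ae_of_all _ fun x => ?_)
    simp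
  rw [h3] at hj2
  linarith

/-- SRLV. -/
theorem srlv (hWIRT : S_WIRT) (hRLV : Pool.Agent.Helper10.RBC.S_RLV.{u}) (hRFAM : S_RFAM.{u})
    (hRHOI : S_RHOI.{u}) (hMOMG : S_MOMG.{u}) : S_SRLV.{u} := by
  intro n T G _ R H hH κ hκ ε N φ H' Q hε hF hQ
  have hT : IsOpen T := hH.et.isOpen
  refine ⟨?_, (hRLV T R H hH κ hκ ε N φ H' Q hε hF hQ).2⟩
  intro a β w hβ hβI hw
  obtain ⟨hr1, hr2, hr3, hr4, hr5⟩ := hRHOI T R H hH.et (ketHer hH)
  have hHC : CHF H T := ⟨hH.smooth, fun x hx => (hH.posDef x hx).isHermitian, hH.closed⟩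
  have hQC : CHF Q T := ⟨hQ.ket.smooth, fun x hx => (hQ.ket.posDef x hx).isHermitian,
    hQ.ket.closed⟩
  have hfam := (hRFAM T R H hH N φ H' hF ε Q hε hQ).2
  obtain ⟨hw0, -⟩ := hr5 Q (ketHer hQ.ket)
  have hu1 : ContDiffOn ℝ ∞ (fun y => ε * φ y + (ld Q y - ld H y)) T :=
    (contDiffOn_const.mul hF.inv.1).add hw0.1
  have hu : InvF T R (fun y => a * (ε * φ y + (ld Q y - ld H y))) := by
    refine ⟨contDiffOn_const.mul hu1, fun γ x y hR => ?_⟩
    have h0 := hF.inv.2 γ x y hR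
    have h1 := hw0.2 γ x y hR
    simp only at h1 ⊢
    rw [h0, h1]
  have hZ1 : CHF (fun x => (a : ℂ) • Q x + β x) T := Pool.Agent.Helper97.HS.chf_ad hT
    (Pool.Agent.Helper97.HS.chf_sm hT hQC a) hβ
  have hZ1I : InvH R (fun x => (a : ℂ) • Q x + β x) := Pool.Agent.Helper97.HS.invH_ad
    (Pool.Agent.Helper97.HS.invH_sm hQ.ket.inv (a : ℂ)) hβI
  have h2 : ∫ x in T, κ x * ((a : ℂ) • Q x + β x + LM w x).det.re =
      ∫ x in T, κ x * ((a : ℂ) • Q x + β x).det.re := hMOMG T R H hH κ hκ _ hZ1 hZ1I w hw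
  refine ⟨?_, h2⟩
  rw [h2]
  have hZ2 : CHF (fun x => (a : ℂ) • (((1 + ε * N : ℝ) : ℂ) • rho H x + (ε : ℂ) • H x) + β x) T :=
    Pool.Agent.Helper97.HS.chf_ad hT (Pool.Agent.Helper97.HS.chf_sm hT
      (Pool.Agent.Helper97.HS.chf_ad hT (Pool.Agent.Helper97.HS.chf_sm hT hr1 _)
        (Pool.Agent.Helper97.HS.chf_sm hT hHC ε)) a) hβ
  have hZ2I : InvH R (fun x => (a : ℂ) • (((1 + ε * N : ℝ) : ℂ) • rho H x + (ε : ℂ) • H x) +
      β x) :=
    Pool.Agent.Helper97.HS.invH_ad (Pool.Agent.Helper97.HS.invH_sm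
      (Pool.Agent.Helper97.HS.invH_ad (Pool.Agent.Helper97.HS.invH_sm hr2 _)
        (Pool.Agent.Helper97.HS.invH_sm hH.inv (ε : ℂ))) (a : ℂ)) hβI
  rw [← hMOMG T R H hH κ hκ _ hZ2 hZ2I _ hu]
  refine setIntegral_congr_fun hT.measurableSet fun x hx => ?_
  have h3 : LM (fun y => a * (ε * φ y + (ld Q y - ld H y))) x =
      (a : ℂ) • LM (fun y => ε * φ y + (ld Q y - ld H y)) x := by
    have e1 : (fun y => a * (ε * φ y + (ld Q y - ld H y))) = fun y =>
        a * (ε * φ y + (ld Q y - ld H y)) + 0 * (ε * φ y + (ld Q y - ld H y)) := by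
      funext y; ring
    rw [e1, Pool.Agent.Helper94.HS.LM_lin hWIRT hT hu1 hu1 a 0 hx]
    simp
  have h4 : (a : ℂ) • Q x + β x = (a : ℂ) • (((1 + ε * N : ℝ) : ℂ) • rho H x + (ε : ℂ) • H x) +
      β x + LM (fun y => a * (ε * φ y + (ld Q y - ld H y))) x := by
    rw [h3, hfam x hx]
    module
  show κ x * ((a : ℂ) • Q x + β x).det.re = _
  rw [h4]

end Pool.Agent.Helper40.HB
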