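import Pool.Agent.Helper40.HB.SVP
import Pool.Agent.Helper82.HB.GoalsB
import Pool.Agent.Helper70.HS.VOLP

/-!
# HB, packet SHM: the volume of `rho H + t β` is homogeneous
-/

open Complex Metric Set Filter Topology MeasureTheory
open scoped ContDiff ComplexConjugate ComplexOrder Manifold Matrix

namespace Pool.Agent.Helper40.HB

open Pool.Agent.Helper95.Lin Pool.Agent.Helper16.Abund Pool.Agent.Helper92.Orb
  Pool.Agent.Helper10.SP Pool.Agent.Helper95.RK Pool.Agent.Helper57.HS
  Pool.Agent.Helper15.HS Pool.Agent.Helper15.GS Pool.Agent.Helper57.RBC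
  Pool.Agent.Helper95.HS Pool.Agent.Helper82.HB Pool.Agent.Helper40.RBC
open Pool.Agent.Helper10.RBC (dn)

universe u v

theorem poly_hom : ∀ (r : ℕ) (W : Polynomial ℝ) (C : ℝ),
    (∀ t : ℝ, 0 < t → |W.eval t| ≤ C * t ^ r) → ∀ t : ℝ, W.eval t = t ^ r * W.eval 1 := by
  intro r
  induction r with
  | zero =>
    intro W C hW t
    have h1 : W.degree ≤ 0 := by
      rw [← Polynomial.isBoundedUnder_abs_atTop_iff]
      refine ⟨C, ?_⟩
      rw [eventually_map]
      filter_upwards [eventually_gt_atTop (0 : ℝ)] with x hx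
      have := hW x hx
      rwa [pow_zero, mul_one] at this
    rw [Polynomial.eq_C_of_degree_le_zero h1]
    simp
  | succ r ih =>
    intro W C hW t
    have h0 : W.eval 0 = 0 := by
      have hc : Tendsto (fun s : ℝ => |W.eval s|) (𝓝[>] 0) (𝓝 |W.eval 0|) :=
        ((W.continuous.abs).tendsto 0).mono_left nhdsWithin_le_nhds
      have hd : Tendsto (fun s : ℝ => C * s ^ (r + 1)) (𝓝[>] 0) (𝓝 0) := by
        have h1 : Tendsto (fun s : ℝ => C * s ^ (r + 1)) (𝓝 0) (𝓝 (C * 0 ^ (r + 1))) :=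
          (continuous_const.mul (continuous_pow (r + 1))).tendsto 0
        have h2 : C * (0 : ℝ) ^ (r + 1) = 0 := by simp
        rw [h2] at h1
        exact h1.mono_left nhdsWithin_le_nhds
      have h3 : |W.eval 0| ≤ 0 := by
        refine le_of_tendsto_of_tendsto hc hd ?_
        filter_upwards [self_mem_nhdsWithin] with s hs
        exact hW s hs
      exact abs_nonpos_iff.1 h3
    have h1 : Polynomial.X ∣ W := by
      rw [Polynomial.X_dvd_iff, Polynomial.coeff_zero_eq_eval_zero, h0]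
    obtain ⟨W', rfl⟩ := h1
    have h2 := ih W' C (fun t ht => by
      have h3 := hW t ht
      rw [Polynomial.eval_mul, Polynomial.eval_X, abs_mul, abs_of_pos ht, pow_succ] at h3
      have h4 : t * |W'.eval t| ≤ t * (C * t ^ r) := by
        calc t * |W'.eval t| ≤ C * (t ^ r * t) := h3
          _ = t * (C * t ^ r) := by ring
      exact le_of_mul_le_mul_left h4 ht) t
    rw [Polynomial.eval_mul, Polynomial.eval_mul, Polynomial.eval_X, Polynomial.eval_X, h2]
    ring

/-- SHM. -/
theorem shm (hSBET : S_SBET.{u}) (hSDL : S_SDL) (hTRC : S_TRC) (hVOLP : S_VOLP.{u})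
    (hMOMG : S_MOMG.{u}) (hRHOI : S_RHOI.{u}) (hRHB : S_RHB.{u}) : S_SHM.{u} := by
  intro n m T G _ R H hH hex κ hκ r p hV σ h P hD hP t ht
  have hT : IsOpen T := hH.et.isOpen
  have hte := hκ.test
  have hPc : ContinuousOn P T := contMm fun a b => (hP.holo a b).continuousOn
  have hσc : ContinuousOn σ T := contMm fun i a => (hD.holo i a).continuousOn
  have hhc : ContinuousOn h T := contMm fun a b => (hD.smooth a b).continuousOn
  have hHc : ContinuousOn H T := contMm fun i j => (hH.smooth i j).continuousOn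
  obtain ⟨-, -, hbet⟩ := hSBET T R hH.et σ h P r hD hP
  set β : Cn n → Matrix (Fin n) (Fin n) ℂ := gS (fun y => σ y * P y) h with hβdef
  have hβ0 : ∀ x ∈ T, (β x).PosSemidef := fun x hx => (hbet x hx).2.1
  have hβC : CHF β T := hP.chf
  have hβI : InvH R β := hP.inv
  have hβc : ContinuousOn β T := contMm fun i j => (hβC.smooth i j).continuousOn
  obtain ⟨hr1, hr2, hr3, hr4, hr5⟩ := hRHOI T R H hH.et (ketHer hH)
  have hρc : ContinuousOn (rho H) T := contMm fun i j => (hr1.smooth i j).continuousOn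
  obtain ⟨C, hC, hCb⟩ := hRHB T R H hH.et (ketHer hH) β (fun x hx => (hβ0 x hx).isHermitian)
    (fun i j => (hβC.smooth i j).continuousOn) hβI
  have hHC : CHF H T := ⟨hH.smooth, fun x hx => (hH.posDef x hx).isHermitian, hH.closed⟩
  -- the sequence
  have hsL : Tendsto (fun j : ℕ => 1 / ((j : ℝ) + 1)) atTop (𝓝 0) :=
    tendsto_one_div_add_atTop_nhds_zero_nat
  have hspos : ∀ j : ℕ, 0 < 1 / ((j : ℝ) + 1) := fun j => by positivity
  set s : ℕ → ℝ := fun j => 1 / ((j : ℝ) + 1) with hsdef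
  have hQe : ∀ j, ∃ Q, TKE T R H (s j) Q := fun j => hex (s j) (hspos j)
  choose Q hQ using hQe
  -- the integrals
  have hw : ∀ (j : ℕ) (t : ℝ), ∫ x in T, κ x * (Q j x + (t : ℂ) • β x).det.re =
      ∫ x in T, κ x * (((1 : ℝ) : ℂ) • rho H x + (s j : ℂ) • H x + (t : ℂ) • β x).det.re := by
    intro j t
    obtain ⟨hw0, hw1⟩ := hr5 (Q j) (ketHer (hQ j).ket)
    have hZ : CHF (fun x => ((1 : ℝ) : ℂ) • rho H x + (s j : ℂ) • H x + (t : ℂ) • β x) T :=
      Pool.Agent.Helper97.HS.chf_ad hT (Pool.Agent.Helper97.HS.chf_ad hT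
        (Pool.Agent.Helper97.HS.chf_sm hT hr1 1) (Pool.Agent.Helper97.HS.chf_sm hT hHC (s j)))
        (Pool.Agent.Helper97.HS.chf_sm hT hβC t)
    have hZI : InvH R (fun x => ((1 : ℝ) : ℂ) • rho H x + (s j : ℂ) • H x + (t : ℂ) • β x) :=
      Pool.Agent.Helper97.HS.invH_ad (Pool.Agent.Helper97.HS.invH_ad
        (Pool.Agent.Helper97.HS.invH_sm hr2 _) (Pool.Agent.Helper97.HS.invH_sm hH.inv (s j : ℂ)))
        (Pool.Agent.Helper97.HS.invH_sm hβI (t : ℂ))
    rw [← hMOMG T R H hH κ hκ _ hZ hZI _ hw0]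
    refine setIntegral_congr_fun hT.measurableSet fun x hx => ?_
    have h3 : Q j x + (t : ℂ) • β x = ((1 : ℝ) : ℂ) • rho H x + (s j : ℂ) • H x + (t : ℂ) • β x +
        LM (fun y => ld (Q j) y - ld H y) x := by
      have h4 := (hQ j).eq x hx
      rw [hw1 x hx] at h4
      have h5 : Q j x = rho H x + LM (fun y => ld (Q j) y - ld H y) x + (s j : ℂ) • H x := by
        rw [h4]; abel
      rw [h5]
      push_cast
      module
    show κ x * (Q j x + (t : ℂ) • β x).det.re = _
    rw [h3]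
  obtain ⟨W, -, hW⟩ := Pool.Agent.Helper70.HS.int_poly hT hte hr1.smooth hβC.smooth
  have hlim : ∀ t : ℝ, Tendsto (fun j => ∫ x in T, κ x * (Q j x + (t : ℂ) • β x).det.re) atTop
      (𝓝 (W.eval t)) := by
    intro t
    have h1 := volLim hT hte hρc hHc (hβc.const_smul (t : ℂ)) (fun _ => 1) s tendsto_const_nhds hsL
    rw [← hW t]
    refine h1.congr fun j => ?_
    exact (hw j t).symm
  have hint : ∀ (j : ℕ) (t : ℝ),
      IntegrableOn (fun x => κ x * (Q j x + (t : ℂ) • β x).det.re) T := by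
    intro j t
    have hQc : ContinuousOn (Q j) T := contMm fun i k => ((hQ j).ket.smooth i k).continuousOn
    exact intk hT hte (contDetRe (hQc.add (hβc.const_smul (t : ℂ))))
  have hsm : ∀ (t : ℝ), 0 ≤ t → ∀ x ∈ T, ((t : ℂ) • β x).PosSemidef := by
    intro t ht x hx
    exact (hβ0 x hx).smul (by exact_mod_cast ht)
  have hpd : ∀ (j : ℕ) (t : ℝ), 0 ≤ t → ∀ x ∈ T, (Q j x + (t : ℂ) • β x).PosDef := by
    intro j t ht x hx
    exact ((hQ j).ket.posDef x hx).add_posSemidef (hsm t ht x hx)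
  -- nonnegativity
  have hW0 : ∀ t : ℝ, 0 ≤ t → 0 ≤ W.eval t := by
    intro t ht
    refine ge_of_tendsto' (hlim t) fun j => ?_
    refine setIntegral_nonneg hT.measurableSet fun x hx => mul_nonneg (hκ.nonneg x) ?_
    exact ((hTRC _ _ (hpd j t ht x hx)).1 (hpd j t ht x hx).isHermitian).2.2.le
  -- upper bound near zero
  have hW1 : ∀ t : ℝ, 0 ≤ t → W.eval t ≤ (t * C) ^ r * p.eval (t * C) := by
    intro t ht
    have hlim2 : Tendsto (fun j => VolP T κ H (s j + t * C)) atTop
        (𝓝 ((t * C) ^ r * p.eval (t * C))) := by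
      have h1 : Tendsto (fun j => s j + t * C) atTop (𝓝 (t * C)) := by
        have := hsL.add_const (t * C)
        rwa [zero_add] at this
      have h2 : Continuous fun y : ℝ => y ^ r * p.eval y := (continuous_pow r).mul p.continuous
      have h3 := (h2.tendsto (t * C)).comp h1
      refine h3.congr fun j => ?_
      exact (hV _).symm
    refine le_of_tendsto_of_tendsto' (hlim t) hlim2 fun j => ?_
    have h1 := (hVOLP T R H hH κ hκ hex).1 (s j) (Q j) (hspos j) (hQ j) (t * C)
      (mul_nonneg ht hC.le)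
    rw [← h1]
    have hQc : ContinuousOn (Q j) T := contMm fun i k => ((hQ j).ket.smooth i k).continuousOn
    refine setIntegral_mono_on (hint j t)
      (intk hT hte (contDetRe (hQc.add (hHc.const_smul ((t * C : ℝ) : ℂ))))) hT.measurableSet
      fun x hx => ?_
    refine mul_le_mul_of_nonneg_left ?_ (hκ.nonneg x)
    refine (hTRC _ (Q j x + ((t * C : ℝ) : ℂ) • H x) (hpd j t ht x hx)).2.2.2.1 ?_
    have h2 : Q j x + ((t * C : ℝ) : ℂ) • H x - (Q j x + (t : ℂ) • β x) =
        (t : ℂ) • ((C : ℂ) • H x - β x) := by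
      push_cast
      module
    rw [h2]
    exact (hCb x hx).2.smul (by exact_mod_cast ht)
  -- the scaling
  have hW2 : ∀ lam : ℝ, 1 ≤ lam → W.eval lam ≤ lam ^ r * W.eval 1 := by
    intro lam hlam
    refine le_of_tendsto_of_tendsto' (hlim lam) ((hlim 1).const_mul (lam ^ r)) fun j => ?_
    rw [← integral_const_mul]
    refine setIntegral_mono_on (hint j lam) ((hint j 1).const_mul _) hT.measurableSet
      fun x hx => ?_
    have hfP : σ x * P x * P x = σ x * P x := by
      rw [Matrix.mul_assoc, hP.proj x hx]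
    obtain ⟨-, -, -, -, -, h5⟩ := hSDL r (Q j x) (σ x * P x) (h x) (P x)
      ((hQ j).ket.posDef x hx) (hD.posDef x hx) (hP.proj x hx) (hP.herm x hx) (hP.tr x hx) hfP
    have h6 := (h5 1 zero_le_one).2.2 lam hlam
    rw [mul_one] at h6
    have h7 : (Q j x + (lam : ℂ) • β x).det.re ≤
        lam ^ r * (Q j x + ((1 : ℝ) : ℂ) • β x).det.re := h6
    calc κ x * (Q j x + (lam : ℂ) • β x).det.re
        ≤ κ x * (lam ^ r * (Q j x + ((1 : ℝ) : ℂ) • β x).det.re) :=
          mul_le_mul_of_nonneg_left h7 (hκ.nonneg x)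
      _ = lam ^ r * (κ x * (Q j x + ((1 : ℝ) : ℂ) • β x).det.re) := by ring
  -- the bound
  obtain ⟨B, hB⟩ := (isCompact_Icc (a := (0 : ℝ)) (b := C)).exists_bound_of_continuousOn
    p.continuous.continuousOn
  have hbd : ∀ t : ℝ, 0 < t → |W.eval t| ≤ (C ^ r * |B| + W.eval 1) * t ^ r := by
    intro t ht
    rw [abs_of_nonneg (hW0 t ht.le)]
    have htr : 0 ≤ t ^ r := pow_nonneg ht.le r
    have hCr : 0 ≤ C ^ r := pow_nonneg hC.le r
    rcases le_total t 1 with h1 | h1
    · have h2 := hW1 t ht.le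
      have h3 : p.eval (t * C) ≤ |B| := by
        have h4 := hB (t * C) ⟨by positivity, by nlinarith⟩
        rw [Real.norm_eq_abs] at h4
        exact (le_abs_self _).trans (h4.trans (le_abs_self _))
      have h5 : (t * C) ^ r * p.eval (t * C) ≤ (t * C) ^ r * |B| :=
        mul_le_mul_of_nonneg_left h3 (by positivity)
      have h6 : (t * C) ^ r * |B| = C ^ r * |B| * t ^ r := by rw [mul_pow]; ring
      have h7 : 0 ≤ W.eval 1 * t ^ r := mul_nonneg (hW0 1 zero_le_one) htr
      linarith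
    · have h2 := hW2 t h1
      have h3 : 0 ≤ C ^ r * |B| * t ^ r := by positivity
      linarith
  have hfin := poly_hom r W _ hbd t
  have e1 := hW t
  have e2 := hW 1
  have e3 : ∫ x in T, κ x * (rho H x + ((1 : ℝ) : ℂ) • β x).det.re =
      ∫ x in T, κ x * (rho H x + β x).det.re := by
    refine integral_congr_ae (ae_of_all _ fun x => ?_)
    simp
  rw [e3] at e2
  rw [e1, e2, hfin]

end Pool.Agent.Helper40.HB
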