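import Pool.Agent.Helper40.HB.SAV

/-!
# HB, packet SVP: positivity of the volume, and the numerical dimension
-/

open Complex Metric Set Filter Topology MeasureTheory
open scoped ContDiff ComplexConjugate ComplexOrder Manifold Matrix

namespace Pool.Agent.Helper40.HB

open Pool.Agent.Helper95.Lin Pool.Agent.Helper16.Abund Pool.Agent.Helper92.Orb
  Pool.Agent.Helper10.SP Pool.Agent.Helper95.RK Pool.Agent.Helper57.HS
  Pool.Agent.Helper15.HS Pool.Agent.Helper15.GS Pool.Agent.Helper57.RBC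
  Pool.Agent.Helper95.HS Pool.Agent.Helper82.HB Pool.Agent.Helper40.RBC
open Pool.Agent.Helper10.RBC (dn)

universe u v

theorem contMm {n p q : ℕ} {T : Set (Cn n)} {X : Cn n → Matrix (Fin p) (Fin q) ℂ}
    (h : ∀ i j, ContinuousOn (fun x => X x i j) T) : ContinuousOn X T :=
  continuousOn_pi.2 fun i => continuousOn_pi.2 fun j => h i j

theorem compFM {n m : ℕ} {T : Set (Cn n)} {F : Cn n → Matrix (Fin m) (Fin m) ℂ → ℝ}
    (hF : ContinuousOn (fun q : Cn n × Matrix (Fin m) (Fin m) ℂ => F q.1 q.2) (T ×ˢ univ))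
    {B : Cn n → Matrix (Fin m) (Fin m) ℂ} (hB : ContinuousOn B T) :
    ContinuousOn (fun x => F x (B x)) T := by
  have h1 : ContinuousOn (fun x => (x, B x)) T := continuousOn_id.prodMk hB
  exact hF.comp h1 fun x hx => ⟨hx, mem_univ _⟩

theorem exFM {n m : ℕ} {T : Set (Cn n)} {P A : Cn n → Matrix (Fin m) (Fin m) ℂ} {α : ℝ}
    (hPc : ContinuousOn P T) (hPA : ∀ x ∈ T, A x * P x = A x ∧ P x * A x = A x)
    (hnd : ∀ x ∈ T, α ≤ (A x + (1 - P x)).det.re) :
    ∃ F : Cn n → Matrix (Fin m) (Fin m) ℂ → ℝ,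
      ContinuousOn (fun q : Cn n × Matrix (Fin m) (Fin m) ℂ => F q.1 q.2) (T ×ˢ univ) ∧
      (∀ x ∈ T, F x (A x) = α) ∧
      ∀ x X, F x X ≤ (P x * X * P x + (1 - P x)).det.re := by
  refine ⟨fun x X => min α ((P x * X * P x + (1 - P x)).det.re), ?_, ?_, ?_⟩
  · have h1 : ContinuousOn (fun q : Cn n × Matrix (Fin m) (Fin m) ℂ => P q.1) (T ×ˢ univ) :=
      hPc.comp continuous_fst.continuousOn fun q hq => hq.1
    have h2 : ContinuousOn (fun q : Cn n × Matrix (Fin m) (Fin m) ℂ => q.2) (T ×ˢ univ) :=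
      continuous_snd.continuousOn
    have h3 : ContinuousOn (fun q : Cn n × Matrix (Fin m) (Fin m) ℂ =>
        P q.1 * q.2 * P q.1 + (1 - P q.1)) (T ×ˢ univ) :=
      ((h1.mul h2).mul h1).add (continuousOn_const.sub h1)
    exact continuousOn_const.inf (contDetRe h3)
  · intro x hx
    have h1 := hPA x hx
    show min α ((P x * A x * P x + (1 - P x)).det.re) = α
    rw [h1.2, h1.1]
    exact min_eq_left (hnd x hx)
  · intro x X
    exact min_le_right _ _

/-- The form `f h fᴴ` with entries continuous. -/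
theorem contGS {n m : ℕ} {T : Set (Cn n)} {σ : Cn n → Matrix (Fin n) (Fin m) ℂ}
    {h P : Cn n → Matrix (Fin m) (Fin m) ℂ} (hσ : ContinuousOn σ T) (hh : ContinuousOn h T)
    (hP : ContinuousOn P T) : ContinuousOn (gS (fun y => σ y * P y) h) T := by
  unfold gS
  have h1 : ContinuousOn (fun x => σ x * P x) T := by
    rw [continuousOn_iff_continuous_domRestrict] at hσ hP ⊢
    exact hσ.matrix_mul hP
  have h2 : ContinuousOn (fun x => σ x * P x * h x) T := by
    rw [continuousOn_iff_continuous_domRestrict] at h1 hh ⊢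
    exact h1.matrix_mul hh
  have h3 : ContinuousOn (fun x => (σ x * P x)ᴴ) T := by
    rw [continuousOn_iff_continuous_domRestrict] at h1 ⊢
    exact h1.matrix_conjTranspose
  rw [continuousOn_iff_continuous_domRestrict] at h2 h3 ⊢
  exact h2.matrix_mul h3

/-- SVP. -/
theorem svp (hSRLV : S_SRLV.{u}) (hSAV : S_SAV.{u}) (hSBET : S_SBET.{u}) (hSDL : S_SDL)
    (hRHOI : S_RHOI.{u}) (hNULL0 : S_NULL0.{u}) (hDETI : S_DETI.{u}) : S_SVP.{u} := by
  intro n m hn T G _ R H σ h ψ hD κ hκ k p hp0 hV r X P s S N φ H' ε Q hL hkr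
  have hT : IsOpen T := hD.ket.et.isOpen
  have hte := hκ.test
  obtain ⟨α, hα, hnd⟩ := hL.nd
  obtain ⟨-, -, hbet⟩ := hSBET T R hD.ket.et σ h P r hD.sd hL.par
  have hPc : ContinuousOn P T := contMm fun a b => (hL.par.holo a b).continuousOn
  have hσc : ContinuousOn σ T := contMm fun i a => (hD.sd.holo i a).continuousOn
  have hhc : ContinuousOn h T := contMm fun a b => (hD.sd.smooth a b).continuousOn
  have hHc : ContinuousOn H T := contMm fun i j => (hD.ket.smooth i j).continuousOn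
  set β : Cn n → Matrix (Fin n) (Fin n) ℂ := gS (fun y => σ y * P y) h with hβdef
  have hβc : ContinuousOn β T := contGS hσc hhc hPc
  obtain ⟨F, hFc, hFA, hFle⟩ := exFM hPc hL.XP hnd
  have hav := hSAV T R H σ h ψ hD κ hκ r X P s S N φ H' ε Q hL F hFc α α
    (fun x hx => ⟨(hFA x hx).ge, (hFA x hx).le⟩) (α / 2) (by linarith)
  -- limits
  have hinv : Tendsto (fun j : ℕ => 1 / ((j : ℝ) + 1)) atTop (𝓝 0) :=
    tendsto_one_div_add_atTop_nhds_zero_nat
  have hεL : Tendsto ε atTop (𝓝 0) :=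
    squeeze_zero (fun j => (hL.seq.eps j).le) hL.seq.eps_le hinv
  have hεN : Tendsto (fun j => ε j * N j) atTop (𝓝 0) :=
    squeeze_zero (fun j => mul_nonneg (hL.seq.eps j).le (hL.seq.fam j).nn) hL.seq.epsN hinv
  have haL : Tendsto (fun j => 1 + ε j * N j) atTop (𝓝 1) := by
    simpa using hεN.const_add 1
  have hsL : Tendsto (fun j => ε j / (1 + ε j * N j)) atTop (𝓝 0) := by
    have h0 := hεL.div haL one_ne_zero
    rw [zero_div] at h0
    exact h0
  have hpL : Tendsto (fun j => p.eval (ε j / (1 + ε j * N j))) atTop (𝓝 (p.eval 0)) :=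
    (p.continuous.tendsto 0).comp hsL
  have hev1 : ∀ᶠ j in atTop, 1 + ε j * N j < 2 := haL.eventually_lt_const (by norm_num)
  have hev2 : ∀ᶠ j in atTop, ε j < 1 := hεL.eventually_lt_const (by norm_num)
  have hev3 : ∀ᶠ j in atTop, p.eval 0 / 2 < p.eval (ε j / (1 + ε j * N j)) :=
    hpL.eventually_const_lt (by linarith)
  set c : ℝ := p.eval 0 / 2 * (1 / 2) ^ k * (α / 2) with hc
  have hcpos : 0 < c := by positivity
  have hlow : ∀ᶠ j in atTop, c * (1 / ε j) ^ (r - k) ≤
      ∫ x in T, κ x * (Q j x + β x).det.re := by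
    filter_upwards [hav, hev1, hev2, hev3] with j hj h1 h2 h3
    have hεj := hL.seq.eps j
    have hNj := (hL.seq.fam j).nn
    have hkQ : KEt T R (Q j) := (hL.seq.tke j).ket
    obtain ⟨hVq, -⟩ := hNULL0 T R (Q j) hkQ κ hκ
    have hDQ := hDETI T R (Q j) hkQ
    have hdQ : ContinuousOn (fun x => (Q j x).det.re) T := hDQ.2.1.continuousOn
    have hQc : ContinuousOn (Q j) T := contMm fun i j' => (hkQ.smooth i j').continuousOn
    have hBc : ContinuousOn (fun x => XS (ε j) σ h (Q j) x) T :=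
      contMm (contXS (ε j) (fun i a => (hD.sd.holo i a).continuousOn)
        (fun a b => (hD.sd.smooth a b).continuousOn)
        fun i j' => (hDQ.2.2.1 i j').continuousOn)
    have hFB : ContinuousOn (fun x => F x (XS (ε j) σ h (Q j) x)) T := compFM hFc hBc
    -- volume
    have ha1 : 1 ≤ 1 + ε j * N j := by
      have : 0 ≤ ε j * N j := mul_nonneg hεj.le hNj
      linarith
    have hvol : vol T κ (Q j) = (1 + ε j * N j) ^ n *
        ((ε j / (1 + ε j * N j)) ^ k * p.eval (ε j / (1 + ε j * N j))) := by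
      have h4 := (hSRLV T R H hD.ket κ hκ (ε j) (N j) (φ j) (H' j) (Q j) hεj (hL.seq.fam j)
        (hL.seq.tke j)).2 0
      rw [add_zero] at h4
      rw [← hV, ← h4]
      unfold vol
      refine setIntegral_congr_fun hT.measurableSet fun x _ => ?_
      simp
    have hvol2 : ε j ^ k * (p.eval 0 / 2 * (1 / 2) ^ k) ≤ vol T κ (Q j) := by
      rw [hvol]
      have e1 : (1 : ℝ) ≤ (1 + ε j * N j) ^ n := one_le_pow₀ ha1
      have e2 : ε j / 2 ≤ ε j / (1 + ε j * N j) :=
        div_le_div_of_nonneg_left hεj.le (by linarith) h1.le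
      have e3 : (ε j / 2) ^ k ≤ (ε j / (1 + ε j * N j)) ^ k :=
        pow_le_pow_left₀ (by positivity) e2 k
      have e5 : ε j ^ k * (1 / 2) ^ k ≤ (ε j / (1 + ε j * N j)) ^ k := by
        refine le_trans (le_of_eq ?_) e3
        rw [← mul_pow]
        congr 1
        ring
      have e6 : (ε j ^ k * (1 / 2) ^ k) * (p.eval 0 / 2) ≤
          (ε j / (1 + ε j * N j)) ^ k * p.eval (ε j / (1 + ε j * N j)) :=
        mul_le_mul e5 h3.le (by linarith) (by positivity)
      have e7 : 0 ≤ (ε j / (1 + ε j * N j)) ^ k * p.eval (ε j / (1 + ε j * N j)) :=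
        le_trans (by positivity) e6
      calc ε j ^ k * (p.eval 0 / 2 * (1 / 2) ^ k)
          = (ε j ^ k * (1 / 2) ^ k) * (p.eval 0 / 2) := by ring
        _ ≤ _ := e6
        _ ≤ _ := le_mul_of_one_le_left e7 e1
    -- the average
    have hden : itg T κ (Q j) (fun _ => 1) = vol T κ (Q j) := by
      unfold itg vol
      simp
    have hnum : α / 2 * vol T κ (Q j) ≤
        ∫ x in T, κ x * (Q j x).det.re * F x (XS (ε j) σ h (Q j) x) := by
      have h5 := hj.1
      unfold avE at h5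
      rw [hden, le_div_iff₀ hVq] at h5
      have h6 : α - α / 2 = α / 2 := by ring
      rw [h6] at h5
      exact h5
    -- the pointwise inequality
    have hpt : ∀ x ∈ T, (1 / ε j) ^ r * (κ x * (Q j x).det.re * F x (XS (ε j) σ h (Q j) x)) ≤
        κ x * (Q j x + β x).det.re := by
      intro x hx
      have hεh : ((ε j : ℂ) • h x).PosDef := (hD.sd.posDef x hx).smul (by exact_mod_cast hεj)
      have hf : (σ x * P x) * P x = σ x * P x := by
        rw [Matrix.mul_assoc, hL.par.proj x hx]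
      have hPh : P x * ((ε j : ℂ) • h x) = ((ε j : ℂ) • h x) * (P x)ᴴ := by
        rw [Matrix.mul_smul, Matrix.smul_mul, hL.par.herm x hx]
      obtain ⟨d1, -, -, -, -, d6⟩ := hSDL r (Q j x) (σ x * P x) ((ε j : ℂ) • h x) (P x)
        (hkQ.posDef x hx) hεh (hL.par.proj x hx) hPh (hL.par.tr x hx) hf
      have hY : (ε j : ℂ) • h x * (σ x * P x)ᴴ * (Q j x)⁻¹ * (σ x * P x) =
          P x * XS (ε j) σ h (Q j) x * P x := by
        have h7 := ((hbet x hx).2.2.2.2.2 (ε j) (Q j)).1
        rw [← h7]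
        simp only [XS, Matrix.smul_mul]
      have hform : ((1 / ε j : ℝ) : ℂ) • ((σ x * P x) * ((ε j : ℂ) • h x) * (σ x * P x)ᴴ) =
          β x := by
        rw [Matrix.mul_smul, Matrix.smul_mul, smul_smul, hβdef]
        have : ((1 / ε j : ℝ) : ℂ) * (ε j : ℂ) = 1 := by
          rw [← Complex.ofReal_mul, one_div_mul_cancel hεj.ne', Complex.ofReal_one]
        rw [this, one_smul]
        rfl
      have h8 := d1 ((1 / ε j : ℝ) : ℂ)
      rw [hform, hY] at h8
      have h9 := (d6 (1 / ε j) (by positivity)).2.1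
      rw [hY] at h9
      have hdpos : 0 < (Q j x).det.re := (hDQ.1 x hx).2.1
      have hdim : (Q j x).det.im = 0 := (hDQ.1 x hx).1
      have h10 : (Q j x + β x).det.re = (Q j x).det.re *
          (1 + ((1 / ε j : ℝ) : ℂ) • (P x * XS (ε j) σ h (Q j) x * P x)).det.re := by
        rw [h8, Complex.mul_re, hdim]
        ring
      have h11 : F x (XS (ε j) σ h (Q j) x) ≤
          (P x * XS (ε j) σ h (Q j) x * P x + (1 - P x)).det.re := hFle x _
      have h12 : (1 / ε j) ^ r * F x (XS (ε j) σ h (Q j) x) ≤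
          (1 + ((1 / ε j : ℝ) : ℂ) • (P x * XS (ε j) σ h (Q j) x * P x)).det.re :=
        (mul_le_mul_of_nonneg_left h11 (by positivity)).trans h9
      rw [h10]
      have h13 := mul_le_mul_of_nonneg_left (mul_le_mul_of_nonneg_left h12 hdpos.le)
        (hκ.nonneg x)
      refine le_trans (le_of_eq ?_) h13
      ring
    have hi1 : IntegrableOn (fun x => κ x * (Q j x).det.re * F x (XS (ε j) σ h (Q j) x)) T := by
      have := intk hT hte (hdQ.mul hFB)
      refine this.congr_fun (fun x _ => ?_) hT.measurableSet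
      simp [mul_assoc]
    have hQβ : ContinuousOn (fun x => Q j x + β x) T := hQc.add hβc
    have hi2 : IntegrableOn (fun x => κ x * (Q j x + β x).det.re) T :=
      intk hT hte (contDetRe hQβ)
    have h13 := setIntegral_mono_on (hi1.const_mul ((1 / ε j) ^ r)) hi2 hT.measurableSet hpt
    rw [integral_const_mul] at h13
    refine le_trans ?_ h13
    have h14 : (1 / ε j) ^ r * (α / 2 * vol T κ (Q j)) ≤ (1 / ε j) ^ r *
        ∫ x in T, κ x * (Q j x).det.re * F x (XS (ε j) σ h (Q j) x) :=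
      mul_le_mul_of_nonneg_left hnum (by positivity)
    refine le_trans ?_ h14
    have h15 : (1 / ε j) ^ r * (α / 2 * (ε j ^ k * (p.eval 0 / 2 * (1 / 2) ^ k))) ≤
        (1 / ε j) ^ r * (α / 2 * vol T κ (Q j)) := by
      apply mul_le_mul_of_nonneg_left _ (by positivity)
      exact mul_le_mul_of_nonneg_left hvol2 (by positivity)
    refine le_trans (le_of_eq ?_) h15
    have h16 : (1 / ε j) ^ r = (1 / ε j) ^ (r - k) * (1 / ε j) ^ k := by
      rw [← pow_add, Nat.sub_add_cancel hkr]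
    have h17 : (1 / ε j) ^ k * ε j ^ k = 1 := by
      rw [← mul_pow, one_div_mul_cancel hεj.ne', one_pow]
    rw [hc, h16]
    linear_combination (-((1 / ε j) ^ (r - k) * (p.eval 0 / 2 * (1 / 2) ^ k * (α / 2)))) * h17
  -- the limit
  obtain ⟨hr1, hr2, hr3, hr4, hr5⟩ := hRHOI T R H hD.ket.et (ketHer hD.ket)
  have hrc : ContinuousOn (rho H) T := contMm fun i j => (hr1.smooth i j).continuousOn
  have hlim := volLim hT hte hrc hHc hβc (fun j => 1 + ε j * N j) ε haL hεL
  have hzero : InvF T R (fun _ : Cn n => (0 : ℝ)) := ⟨contDiffOn_const, fun _ _ _ _ => rfl⟩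
  have hI : ∀ j, ∫ x in T, κ x * (Q j x + β x).det.re = ∫ x in T,
      κ x * (((1 + ε j * N j : ℝ) : ℂ) • rho H x + (ε j : ℂ) • H x + β x).det.re := by
    intro j
    obtain ⟨g1, g2⟩ := (hSRLV T R H hD.ket κ hκ (ε j) (N j) (φ j) (H' j) (Q j) (hL.seq.eps j)
      (hL.seq.fam j) (hL.seq.tke j)).1 1 β (fun _ => 0) hL.par.chf hL.par.inv hzero
    rw [g2] at g1
    simpa using g1
  simp_rw [hI] at hlow
  have hεpos : ∀ j, 0 < ε j := hL.seq.eps
  constructor
  · -- the degrees agree
    by_contra hne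
    have hlt : 1 ≤ r - k := by omega
    set L : ℝ := ∫ x in T, κ x * (rho H x + β x).det.re with hLd
    have hev4 : ∀ᶠ j in atTop, ∫ x in T,
        κ x * (((1 + ε j * N j : ℝ) : ℂ) • rho H x + (ε j : ℂ) • H x + β x).det.re < |L| + 1 := by
      refine hlim.eventually_lt_const ?_
      have := le_abs_self L
      linarith
    have hev5 : ∀ᶠ j in atTop, ε j < c / (|L| + 1) :=
      hεL.eventually_lt_const (by positivity)
    obtain ⟨j, j1, j2, j3, j4⟩ := (hlow.and (hev4.and (hev5.and hev2))).exists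
    have hge1 : 1 ≤ 1 / ε j := by
      rw [le_div_iff₀ (hεpos j)]
      linarith
    have h18 : 1 / ε j ≤ (1 / ε j) ^ (r - k) := by
      calc 1 / ε j = (1 / ε j) ^ 1 := (pow_one _).symm
        _ ≤ _ := pow_le_pow_right₀ hge1 hlt
    have h19 : c * (1 / ε j) ≤ c * (1 / ε j) ^ (r - k) :=
      mul_le_mul_of_nonneg_left h18 hcpos.le
    have h20 : |L| + 1 < c * (1 / ε j) := by
      rw [lt_div_iff₀ (by positivity)] at j3
      rw [mul_one_div, lt_div_iff₀ (hεpos j)]
      linarith
    linarith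
  · have hge : c ≤ ∫ x in T, κ x * (rho H x + β x).det.re := by
      refine ge_of_tendsto hlim ?_
      filter_upwards [hlow, hev2] with j hj hj2
      refine le_trans ?_ hj
      have hge1 : 1 ≤ 1 / ε j := by
        rw [le_div_iff₀ (hεpos j)]
        linarith
      exact le_mul_of_one_le_right hcpos.le (one_le_pow₀ hge1)
    exact lt_of_lt_of_le hcpos hge

end Pool.Agent.Helper40.HB
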