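import Pool.Agent.Helper44.RBC.Rd

/-!
# HB: linear algebra for semidefinite forms of rank at most `r`

`rdlr`: the determinant of a perturbation of rank at most `r`. `galr`: the form of `GAL` for a semidefinite
form of rank at most `r`.
-/

open Matrix
open scoped ComplexOrder ComplexConjugate

namespace Pool.Agent.Helper40.HB

open Pool.Agent.Helper44.RBC Pool.Agent.Helper95.Lin Pool.Agent.Helper16.Abund
  Pool.Agent.Helper10.SP

/-- Simultaneous diagonalization of a metric and a semidefinite form of rank at most `r`. -/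
theorem sdr {n : ℕ} (r : ℕ) (M D : Matrix (Fin n) (Fin n) ℂ) (hM : M.PosDef)
    (hD : D.PosSemidef) (hr : D.rank ≤ r) :
    ∃ (S : Matrix (Fin n) (Fin n) ℂ) (μ : Fin n → ℝ), IsUnit S.det ∧ M = S * Sᴴ ∧
      D = S * Matrix.diagonal (fun i => (μ i : ℂ)) * Sᴴ ∧ (∀ i, 0 ≤ μ i) ∧
      D.rank = (Finset.univ.filter fun i => μ i ≠ 0).card ∧
      (Finset.univ.filter fun i => μ i ≠ 0).card ≤ r := by
  obtain ⟨S, μ, hS, h1, h2⟩ := sd M D hM hD.1
  have hμ : ∀ i, 0 ≤ μ i := fun i => psd_conj hS (by rw [← h2]; exact hD) i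
  have hSH : IsUnit (Sᴴ).det := by
    rw [Matrix.det_conjTranspose]
    exact isUnit_iff_ne_zero.2 (by simpa using hS.ne_zero)
  have hrk : (D).rank = Fintype.card {i // (μ i : ℂ) ≠ 0} := by
    rw [h2, Matrix.rank_mul_eq_left_of_isUnit_det _ _ hSH,
      Matrix.rank_mul_eq_right_of_isUnit_det _ _ hS, Matrix.rank_diagonal]
  have hrk2 : D.rank = (Finset.univ.filter fun i => μ i ≠ 0).card := by
    rw [hrk, Fintype.card_subtype]
    congr 1
    ext i
    simp
  exact ⟨S, μ, hS, h1, h2, hμ, hrk2, hrk2 ▸ hr⟩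

theorem conj_diag_add {n : ℕ} {S M D : Matrix (Fin n) (Fin n) ℂ} {μ : Fin n → ℝ}
    (h1 : M = S * Sᴴ) (h2 : D = S * Matrix.diagonal (fun i => (μ i : ℂ)) * Sᴴ) (a b : ℝ) :
    (a : ℂ) • M + (b : ℂ) • D =
      S * Matrix.diagonal (fun i => ((a + b * μ i : ℝ) : ℂ)) * Sᴴ := by
  have : Matrix.diagonal (fun i => ((a + b * μ i : ℝ) : ℂ)) =
      (a : ℂ) • (1 : Matrix (Fin n) (Fin n) ℂ) + (b : ℂ) • Matrix.diagonal (fun i => (μ i : ℂ)) := by
    rw [← Matrix.diagonal_one, ← Matrix.diagonal_smul, ← Matrix.diagonal_smul,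
      Matrix.diagonal_add]
    congr 1; funext i; push_cast; simp
  rw [this, Matrix.mul_add, Matrix.add_mul, Matrix.mul_smul, Matrix.smul_mul, Matrix.mul_one,
    Matrix.mul_smul, Matrix.smul_mul, ← h1, ← h2]

/-- The determinant of a perturbation of rank at most `r`. -/
theorem rdlr {n : ℕ} (r : ℕ) (M D : Matrix (Fin n) (Fin n) ℂ) (lam : ℝ)
    (hM : M.PosDef) (hD : D.PosSemidef) (hr : D.rank ≤ r) (hl : 1 ≤ lam)
    (hle : ((lam : ℂ) • M - (M + D)).PosSemidef) :
    (M + D).det.re ≤ lam ^ r * M.det.re := by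
  obtain ⟨S, μ, hS, h1, h2, hμ, -, hcard⟩ := sdr r M D hM hD hr
  have hμ2 : ∀ i, 0 ≤ lam - 1 - μ i := by
    have h3 := conj_diag_add h1 h2 (lam - 1) (-1)
    have h4 : (lam : ℂ) • M - (M + D) = ((lam - 1 : ℝ) : ℂ) • M + ((-1 : ℝ) : ℂ) • D := by
      push_cast
      rw [sub_smul, one_smul, neg_smul, one_smul]
      abel
    rw [h4, h3] at hle
    intro i
    have := psd_conj hS hle i
    linarith
  have h3 : M + D = S * Matrix.diagonal (fun i => ((1 + 1 * μ i : ℝ) : ℂ)) * Sᴴ := by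
    rw [← conj_diag_add h1 h2 1 1]
    simp
  have hM0 : 0 ≤ M.det.re := (Complex.le_def.1 hM.det_pos.le).1
  rw [h3, det_conj, ← h1, Complex.re_mul_ofReal, mul_comm]
  refine mul_le_mul_of_nonneg_right ?_ hM0
  calc ∏ i, (1 + 1 * μ i) = ∏ i ∈ Finset.univ.filter (fun i => μ i ≠ 0), (1 + 1 * μ i) := by
        rw [Finset.prod_filter]
        refine Finset.prod_congr rfl fun i _ => ?_
        split_ifs with h
        · rfl
        · rw [not_not.1 h]; ring
    _ ≤ ∏ i ∈ Finset.univ.filter (fun i => μ i ≠ 0), lam :=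
        Finset.prod_le_prod (fun i _ => by linarith [hμ i]) fun i _ => by linarith [hμ2 i]
    _ = lam ^ (Finset.univ.filter fun i => μ i ≠ 0).card := by rw [Finset.prod_const]
    _ ≤ lam ^ r := pow_le_pow_right₀ hl hcard

/-- The traces of a simultaneously diagonalized pair. -/
theorem tr_conj {n : ℕ} {S Q β : Matrix (Fin n) (Fin n) ℂ} {μ : Fin n → ℝ}
    (hS : IsUnit S.det) (h1 : Q = S * Sᴴ)
    (h2 : β = S * Matrix.diagonal (fun i => (μ i : ℂ)) * Sᴴ) :
    β * Q⁻¹ = S * Matrix.diagonal (fun i => (μ i : ℂ)) * S⁻¹ ∧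
    Matrix.trace (β * Q⁻¹) = ((∑ i, μ i : ℝ) : ℂ) ∧
    Matrix.trace (β * Q⁻¹ * β * Q⁻¹) = ((∑ i, μ i ^ 2 : ℝ) : ℂ) := by
  have a1 : S⁻¹ * S = 1 := Matrix.nonsing_inv_mul _ hS
  have hSH : IsUnit (Sᴴ).det := by
    rw [Matrix.det_conjTranspose]
    exact isUnit_iff_ne_zero.2 (by simpa using hS.ne_zero)
  have a2 : Sᴴ * (Sᴴ)⁻¹ = 1 := Matrix.mul_nonsing_inv _ hSH
  have h3 : β * Q⁻¹ = S * Matrix.diagonal (fun i => (μ i : ℂ)) * S⁻¹ := by
    rw [h1, Matrix.mul_inv_rev, h2]
    calc S * Matrix.diagonal (fun i => (μ i : ℂ)) * Sᴴ * ((Sᴴ)⁻¹ * S⁻¹) =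
        S * Matrix.diagonal (fun i => (μ i : ℂ)) * (Sᴴ * (Sᴴ)⁻¹) * S⁻¹ := by
          simp only [Matrix.mul_assoc]
      _ = _ := by rw [a2, Matrix.mul_one]
  have htr : ∀ ν : Fin n → ℂ, Matrix.trace (S * Matrix.diagonal ν * S⁻¹) = ∑ i, ν i := by
    intro ν
    rw [Matrix.mul_assoc, Matrix.trace_mul_comm, Matrix.mul_assoc, a1, Matrix.mul_one,
      Matrix.trace_diagonal]
  refine ⟨h3, ?_, ?_⟩
  · rw [h3, htr]; push_cast; rfl
  · have h4 : β * Q⁻¹ * β * Q⁻¹ = S * Matrix.diagonal (fun i => ((μ i : ℂ)) ^ 2) * S⁻¹ := by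
      rw [Matrix.mul_assoc (β * Q⁻¹) β Q⁻¹, h3]
      calc S * Matrix.diagonal (fun i => (μ i : ℂ)) * S⁻¹ *
            (S * Matrix.diagonal (fun i => (μ i : ℂ)) * S⁻¹) =
          S * Matrix.diagonal (fun i => (μ i : ℂ)) * (S⁻¹ * S) *
            Matrix.diagonal (fun i => (μ i : ℂ)) * S⁻¹ := by simp only [Matrix.mul_assoc]
        _ = S * (Matrix.diagonal (fun i => (μ i : ℂ)) *
            Matrix.diagonal (fun i => (μ i : ℂ))) * S⁻¹ := by
            rw [a1, Matrix.mul_one]; simp only [Matrix.mul_assoc]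
        _ = _ := by rw [Matrix.diagonal_mul_diagonal]; congr 3; funext i; ring
    rw [h4, htr]; push_cast; rfl

theorem sum_id {n : ℕ} (r : ℕ) (μ : Fin n → ℝ) :
    (∑ i, μ i ^ 2) - 2 * (∑ i, μ i) + r =
      (∑ i ∈ Finset.univ.filter (fun i => μ i ≠ 0), (μ i - 1) ^ 2) +
        (r - ((Finset.univ.filter fun i => μ i ≠ 0).card : ℝ)) := by
  have h1 : ∑ i, μ i ^ 2 = ∑ i ∈ Finset.univ.filter (fun i => μ i ≠ 0), μ i ^ 2 := by
    rw [Finset.sum_filter]
    refine Finset.sum_congr rfl fun i _ => ?_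
    split_ifs with h
    · rfl
    · rw [not_not.1 h]; ring
  have h2 : ∑ i, μ i = ∑ i ∈ Finset.univ.filter (fun i => μ i ≠ 0), μ i := by
    rw [Finset.sum_filter]
    refine Finset.sum_congr rfl fun i _ => ?_
    split_ifs with h
    · rfl
    · rw [not_not.1 h]
  have h3 : (((Finset.univ.filter fun i => μ i ≠ 0).card : ℝ)) =
      ∑ i ∈ Finset.univ.filter (fun i => μ i ≠ 0), (1 : ℝ) := by simp
  rw [h1, h2, h3, Finset.mul_sum]
  have h4 : ∀ s : Finset (Fin n), ∑ i ∈ s, (μ i - 1) ^ 2 =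
      (∑ i ∈ s, μ i ^ 2) - (∑ i ∈ s, 2 * μ i) + ∑ i ∈ s, (1 : ℝ) := by
    intro s
    rw [← Finset.sum_sub_distrib, ← Finset.sum_add_distrib]
    exact Finset.sum_congr rfl fun i _ => by ring
  rw [h4]
  ring

/-- The form of `GAL` for a semidefinite form of rank at most `r`. -/
theorem galr {n : ℕ} (r : ℕ) (Q β : Matrix (Fin n) (Fin n) ℂ) (hQ : Q.PosDef)
    (hβ : β.PosSemidef) (hr : β.rank ≤ r) :
    0 ≤ (Matrix.trace (β * Q⁻¹ * β * Q⁻¹)).re - 2 * (Matrix.trace (β * Q⁻¹)).re + r ∧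
    ((Matrix.trace (β * Q⁻¹ * β * Q⁻¹)).re - 2 * (Matrix.trace (β * Q⁻¹)).re + r = 0 →
      β * Q⁻¹ * β = β ∧ β.rank = r ∧ Matrix.trace (β * Q⁻¹) = r ∧ (Q - β).PosSemidef ∧
      ∃ V : Submodule ℂ (Cn n), Module.finrank ℂ V = r ∧
        ∀ e : Cn n, hermi (Q - β) e e = 0 ↔ e ∈ V) := by
  obtain ⟨S, μ, hS, h1, h2, hμ, hrk, hcard⟩ := sdr r Q β hQ hβ hr
  obtain ⟨h3, h4, h5⟩ := tr_conj hS h1 h2
  have hid := sum_id r μ
  rw [h4, h5, Complex.ofReal_re, Complex.ofReal_re, hid]
  have hc : (((Finset.univ.filter fun i => μ i ≠ 0).card : ℝ)) ≤ r := by exact_mod_cast hcard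
  have hs : 0 ≤ ∑ i ∈ Finset.univ.filter (fun i => μ i ≠ 0), (μ i - 1) ^ 2 :=
    Finset.sum_nonneg fun i _ => sq_nonneg _
  refine ⟨by linarith, fun h0 => ?_⟩
  have hs0 : ∑ i ∈ Finset.univ.filter (fun i => μ i ≠ 0), (μ i - 1) ^ 2 = 0 := by linarith
  have hcr : (((Finset.univ.filter fun i => μ i ≠ 0).card : ℝ)) = r := by linarith
  have hcr' : (Finset.univ.filter fun i => μ i ≠ 0).card = r := by exact_mod_cast hcr
  have h01 : ∀ i, μ i = 0 ∨ μ i = 1 := by
    intro i
    by_cases h : μ i = 0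
    · exact Or.inl h
    · right
      have := (Finset.sum_eq_zero_iff_of_nonneg fun i _ => sq_nonneg _).1 hs0 i (by simp [h])
      nlinarith [pow_eq_zero_iff (two_ne_zero) |>.1 this]
  have a1 : S⁻¹ * S = 1 := Matrix.nonsing_inv_mul _ hS
  have a0 : S * S⁻¹ = 1 := Matrix.mul_nonsing_inv _ hS
  have hsub : Q - β = S * Matrix.diagonal (fun i => ((1 + -1 * μ i : ℝ) : ℂ)) * Sᴴ := by
    rw [← conj_diag_add h1 h2 1 (-1)]
    push_cast
    rw [one_smul, neg_smul, one_smul, sub_eq_add_neg]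
  refine ⟨?_, by rw [hrk, hcr'], ?_, ?_, ?_⟩
  · rw [h3]
    conv_lhs => rw [h2]
    calc S * Matrix.diagonal (fun i => (μ i : ℂ)) * S⁻¹ *
            (S * Matrix.diagonal (fun i => (μ i : ℂ)) * Sᴴ) =
          S * Matrix.diagonal (fun i => (μ i : ℂ)) * (S⁻¹ * S) *
            Matrix.diagonal (fun i => (μ i : ℂ)) * Sᴴ := by simp only [Matrix.mul_assoc]
      _ = S * (Matrix.diagonal (fun i => (μ i : ℂ)) *
            Matrix.diagonal (fun i => (μ i : ℂ))) * Sᴴ := by
            rw [a1, Matrix.mul_one]; simp only [Matrix.mul_assoc]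
      _ = S * Matrix.diagonal (fun i => (μ i : ℂ)) * Sᴴ := by
          rw [Matrix.diagonal_mul_diagonal]
          congr 3
          funext i
          rcases h01 i with h | h <;> rw [h] <;> simp
      _ = β := h2.symm
  · have : (∑ i, μ i) = r := by
      have h6 : ∑ i, μ i = ∑ i ∈ Finset.univ.filter (fun i => μ i ≠ 0), (1 : ℝ) := by
        rw [Finset.sum_filter]
        refine Finset.sum_congr rfl fun i _ => ?_
        rcases h01 i with h | h
        · simp [h]
        · simp [h]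
      rw [h6]
      simpa using hcr
    rw [this]
    push_cast
    rfl
  · rw [hsub]
    refine Matrix.PosSemidef.mul_mul_conjTranspose_same ?_ S
    rw [Matrix.posSemidef_diagonal_iff]
    intro i
    rcases h01 i with h | h
    · rw [h]; norm_num
    · rw [h]; norm_num
  · -- the kernel
    let f : Cn n →ₗ[ℂ] ({i : Fin n // μ i = 0} → ℂ) :=
      { toFun := fun e i => (e ᵥ* S) i.1
        map_add' := fun a b => by funext i; simp [Matrix.add_vecMul]
        map_smul' := fun a b => by funext i; simp [Matrix.smul_vecMul] }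
    have hfs : Function.Surjective f := by
      intro g
      refine ⟨(fun i => if h : μ i = 0 then g ⟨i, h⟩ else 0) ᵥ* S⁻¹, ?_⟩
      funext i
      show ((_ ᵥ* S⁻¹) ᵥ* S) i.1 = _
      rw [Matrix.vecMul_vecMul, a1, Matrix.vecMul_one]
      simp [i.2]
    refine ⟨LinearMap.ker f, ?_, ?_⟩
    · have h7 := LinearMap.finrank_range_add_finrank_ker f
      rw [LinearMap.range_eq_top.2 hfs, finrank_top] at h7
      have h8 : Module.finrank ℂ ({i : Fin n // μ i = 0} → ℂ) =
          Fintype.card {i : Fin n // μ i = 0} := Module.finrank_fintype_fun_eq_card ℂ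
      have h9 : Module.finrank ℂ (Cn n) = n := by simp [Cn]
      have h10 : Fintype.card {i : Fin n // μ i = 0} + r = n := by
        rw [← hcr', Fintype.card_subtype]
        have := Finset.card_filter_add_card_filter_not (s := (Finset.univ : Finset (Fin n)))
          (fun i => μ i = 0)
        simpa using this
      omega
    · intro e
      have h11 : hermi (Q - β) e e =
          ∑ i, ((1 + -1 * μ i : ℝ) : ℂ) * ((e ᵥ* S) i * conj ((e ᵥ* S) i)) := by
        rw [hsub]
        have h12 : hermi (S * Matrix.diagonal (fun i => ((1 + -1 * μ i : ℝ) : ℂ)) * Sᴴ) e e =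
            e ᵥ* (S * Matrix.diagonal (fun i => ((1 + -1 * μ i : ℝ) : ℂ)) * Sᴴ) ⬝ᵥ star e := by
          unfold hermi
          simp only [Matrix.vecMul, dotProduct, Pi.star_apply, RCLike.star_def, Finset.sum_mul]
          rw [Finset.sum_comm]
          refine Finset.sum_congr rfl fun j _ => Finset.sum_congr rfl fun i _ => ?_
          ring
        rw [h12, ← Matrix.vecMul_vecMul, ← Matrix.vecMul_vecMul, ← Matrix.dotProduct_mulVec]
        have h13 : Sᴴ *ᵥ star e = star (e ᵥ* S) := by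
          rw [Matrix.star_vecMul]
        rw [h13]
        simp only [dotProduct, Matrix.vecMul_diagonal, Pi.star_apply, RCLike.star_def]
        refine Finset.sum_congr rfl fun i _ => ?_
        ring
      rw [h11, LinearMap.mem_ker]
      constructor
      · intro h0'
        funext i
        have h14 : ∑ i, (1 + -1 * μ i) * Complex.normSq ((e ᵥ* S) i) = 0 := by
          have h15 : ((∑ i, (1 + -1 * μ i) * Complex.normSq ((e ᵥ* S) i) : ℝ) : ℂ) = 0 := by
            rw [← h0']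
            push_cast
            refine Finset.sum_congr rfl fun i _ => ?_
            rw [Complex.mul_conj]
          exact_mod_cast h15
        have h16 := (Finset.sum_eq_zero_iff_of_nonneg fun i _ => by
          refine mul_nonneg ?_ (Complex.normSq_nonneg _)
          rcases h01 i with h | h <;> rw [h] <;> norm_num).1 h14 i.1 (Finset.mem_univ _)
        rw [i.2] at h16
        have h17 : Complex.normSq ((e ᵥ* S) i.1) = 0 := by linarith
        exact Complex.normSq_eq_zero.1 h17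
      · intro h18
        refine Finset.sum_eq_zero fun i _ => ?_
        rcases h01 i with h | h
        · have h19 := congrFun h18 ⟨i, h⟩
          have h20 : (e ᵥ* S) i = 0 := h19
          rw [h20]; simp
        · rw [h]; norm_num

end Pool.Agent.Helper40.HB
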