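import Mathlib
import Pool.Agent.Helper26.HB.Goals

/-!
# Packet HB-S0 (project HB of helper26, MP_a47ed5_al)

In a finitely generated group of class at most 2 which is not virtually abelian some commutator
has infinite order.
-/

set_option autoImplicit false

open scoped commutatorElement

namespace Pool.Agent.Helper40.HB

open Pool.Agent.Helper26.HB

/-- additivity of the commutator in the second variable in class 2 -/
theorem comm_mul_right {N : Type} [Group N] (h : Cl2 N) (x y z : N) :
    ⁅x, y * z⁆ = ⁅x, y⁆ * ⁅x, z⁆ := by
  have h1 := h x z y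
  have h2 : ⁅x, y * z⁆ = ⁅x, y⁆ * (y * ⁅x, z⁆ * y⁻¹) := by
    simp only [commutatorElement_def]
    group
  rw [h2, ← h1]
  group

/-- the homomorphism `y ↦ ⁅x, y⁆` with values in the centre -/
def cx {N : Type} [Group N] (h : Cl2 N) (x : N) : N →* Subgroup.center N where
  toFun y := ⟨⁅x, y⁆, Subgroup.mem_center_iff.2 fun g => (h x y g).symm⟩
  map_one' := by
    ext
    simp
  map_mul' y z := by
    ext
    exact comm_mul_right h x y z

theorem gS0 : G_S0 := by
  intro N _ hfg hcl hnva
  by_contra hcon
  push Not at hcon
  obtain ⟨X, hX⟩ := hfg.out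
  have hfin : ∀ x : N, (cx hcl x).ker.FiniteIndex := by
    intro x
    letI : CommGroup (cx hcl x).range :=
      { (inferInstance : Group (cx hcl x).range) with
        mul_comm := by
          intro a b
          apply Subtype.ext
          apply Subtype.ext
          exact (Subgroup.mem_center_iff.1 (b : Subgroup.center N).2 _) }
    have htor : IsMulTorsion (cx hcl x).range := by
      rintro ⟨g, hg⟩
      obtain ⟨y, rfl⟩ := hg
      obtain ⟨n, hn, hn1⟩ := hcon x y
      rw [isOfFinOrder_iff_pow_eq_one]
      refine ⟨n, hn, ?_⟩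
      apply Subtype.ext
      apply Subtype.ext
      exact hn1
    have h1 : Group.FG N := hfg
    have h2 : Group.FG (cx hcl x).range := Group.fg_range _
    have h3 : Finite (cx hcl x).range := CommGroup.finite_of_fg_isMulTorsion _ htor
    infer_instance
  have hA : (⨅ g : X, (cx hcl (g : N)).ker).FiniteIndex :=
    Subgroup.finiteIndex_iInf fun g => hfin g
  obtain ⟨x, hx, y, -, hxy⟩ := hnva _ hA
  apply hxy
  have hle : Subgroup.closure (X : Set N) ≤ Subgroup.centralizer {x} := by
    rw [Subgroup.closure_le]
    intro g hg
    have h1 : x ∈ (cx hcl g).ker := (Subgroup.mem_iInf.1 hx) ⟨g, hg⟩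
    have h2 : ⁅g, x⁆ = 1 := by
      have h3 := congrArg Subtype.val (MonoidHom.mem_ker.1 h1)
      simpa [cx] using h3
    rw [commutatorElement_eq_one_iff_mul_comm] at h2
    rw [SetLike.mem_coe, Subgroup.mem_centralizer_singleton_iff]
    exact h2
  have hy : y ∈ Subgroup.centralizer {x} := hle (by rw [hX]; exact Subgroup.mem_top y)
  rw [Subgroup.mem_centralizer_singleton_iff] at hy
  exact hy.symm

end Pool.Agent.Helper40.HB
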